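import Pool.Agent.W626.FR.Stms
import Pool.Agent.W782.FG.Split

/-!
# The exchangeability identity
-/

namespace W672.FR

open MeasureTheory ProbabilityTheory Filter FrogGW FrogRec
open scoped ENNReal NNReal Classical Topology

section

variable {X : Type} [MeasurableSpace X] (m : Measure X) [IsProbabilityMeasure m]

/-- Exchanging the additional coordinate with the coordinate `i`. -/
theorem mp_swap (i : ℕ) :
    MeasurePreserving (fun u : ℕ → X => (u (i + 1), fun j => u (if j = i then 0 else j + 1)))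
      (Measure.infinitePi fun _ : ℕ => m) (m.prod (Measure.infinitePi fun _ : ℕ => m)) := by
  refine Pool.Agent.W782.FG.mp_split m
    (fun o : Option ℕ => o.elim (i + 1) fun j => if j = i then 0 else j + 1) ?_
  rintro (_ | a) (_ | b) h
  · rfl
  · simp only [Option.elim] at h
    split_ifs at h with h1
    omega
  · simp only [Option.elim] at h
    split_ifs at h with h1
    omega
  · simp only [Option.elim] at h
    congr 1
    split_ifs at h with h1 h2 h2
    · rw [h1, h2]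
    · omega

theorem mp_std :
    MeasurePreserving (fun u : ℕ → X => (u 0, fun j => u (j + 1)))
      (Measure.infinitePi fun _ : ℕ => m) (m.prod (Measure.infinitePi fun _ : ℕ => m)) :=
  Pool.Agent.W782.FG.seq X m

theorem exch_one (κ : X → ℝ≥0) (f : X → ℝ≥0∞) (hκ : Measurable κ) (hf : Measurable f)
    (k i : ℕ) (hi : i < k) :
    ∫⁻ x, ∫⁻ Y, ((κ x / (κ x + ∑ j ∈ Finset.range k, κ (Y j)) : ℝ≥0) : ℝ≥0∞) * f (Y i)
        ∂(Measure.infinitePi fun _ : ℕ => m) ∂m =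
      ∫⁻ x, ∫⁻ Y, ((κ (Y i) / ((∑ j ∈ Finset.range k, κ (Y j)) + κ x) : ℝ≥0) : ℝ≥0∞) * f x
        ∂(Measure.infinitePi fun _ : ℕ => m) ∂m := by
  have h1 : Measurable (fun q : X × (ℕ → X) =>
      ((κ q.1 / (κ q.1 + ∑ j ∈ Finset.range k, κ (q.2 j)) : ℝ≥0) : ℝ≥0∞) * f (q.2 i)) := by
    fun_prop
  have h2 : Measurable (fun q : X × (ℕ → X) =>
      ((κ (q.2 i) / ((∑ j ∈ Finset.range k, κ (q.2 j)) + κ q.1) : ℝ≥0) : ℝ≥0∞) * f q.1) := by
    fun_prop
  have e1 := lintegral_prod (μ := m) (ν := Measure.infinitePi fun _ : ℕ => m) _ h1.aemeasurable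
  have e2 := lintegral_prod (μ := m) (ν := Measure.infinitePi fun _ : ℕ => m) _ h2.aemeasurable
  beta_reduce at e1 e2
  rw [← e1, ← e2, ← (mp_swap m i).lintegral_comp h1, ← (mp_std m).lintegral_comp h2]
  refine lintegral_congr fun u => ?_
  dsimp only
  rw [if_pos rfl]
  have h3 : κ (u (i + 1)) + ∑ j ∈ Finset.range k, κ (u (if j = i then 0 else j + 1)) =
      (∑ j ∈ Finset.range k, κ (u (j + 1))) + κ (u 0) := by
    have hm : i ∈ Finset.range k := Finset.mem_range.mpr hi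
    rw [← Finset.add_sum_erase _ _ hm, ← Finset.add_sum_erase (Finset.range k)
      (fun j => κ (u (j + 1))) hm]
    rw [if_pos rfl]
    have : ∑ j ∈ (Finset.range k).erase i, κ (u (if j = i then 0 else j + 1)) =
        ∑ j ∈ (Finset.range k).erase i, κ (u (j + 1)) := by
      refine Finset.sum_congr rfl fun j hj => ?_
      rw [if_neg (Finset.ne_of_mem_erase hj)]
    rw [this]
    ring
  rw [h3]

end

theorem taskExch : TaskExch := by
  intro X _ m _ κ p _ f hκ hf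
  have s1 : ∫⁻ x', ∫⁻ k, ∫⁻ Y, ∑ i ∈ Finset.range k,
        ((κ x' / (κ x' + ∑ j ∈ Finset.range k, κ (Y j)) : ℝ≥0) : ℝ≥0∞) * f (Y i)
        ∂(Measure.infinitePi fun _ : ℕ => m) ∂p ∂m =
      ∫⁻ k, ∫⁻ x', ∫⁻ Y, ∑ i ∈ Finset.range k,
        ((κ x' / (κ x' + ∑ j ∈ Finset.range k, κ (Y j)) : ℝ≥0) : ℝ≥0∞) * f (Y i)
        ∂(Measure.infinitePi fun _ : ℕ => m) ∂m ∂p := by
    apply lintegral_lintegral_swap
    apply Measurable.aemeasurable
    apply measurable_from_prod_countable_left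
    intro k
    apply Measurable.lintegral_prod_right (f := fun (x' : X) (Y : ℕ → X) =>
      ∑ i ∈ Finset.range k,
        ((κ x' / (κ x' + ∑ j ∈ Finset.range k, κ (Y j)) : ℝ≥0) : ℝ≥0∞) * f (Y i))
    fun_prop
  have s2 : ∫⁻ x, ∫⁻ k, ∫⁻ Y,
        (((∑ j ∈ Finset.range k, κ (Y j)) / ((∑ j ∈ Finset.range k, κ (Y j)) + κ x) : ℝ≥0) :
          ℝ≥0∞) * f x ∂(Measure.infinitePi fun _ : ℕ => m) ∂p ∂m =
      ∫⁻ k, ∫⁻ x, ∫⁻ Y,
        (((∑ j ∈ Finset.range k, κ (Y j)) / ((∑ j ∈ Finset.range k, κ (Y j)) + κ x) : ℝ≥0) :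
          ℝ≥0∞) * f x ∂(Measure.infinitePi fun _ : ℕ => m) ∂m ∂p := by
    apply lintegral_lintegral_swap
    apply Measurable.aemeasurable
    apply measurable_from_prod_countable_left
    intro k
    apply Measurable.lintegral_prod_right (f := fun (x : X) (Y : ℕ → X) =>
        (((∑ j ∈ Finset.range k, κ (Y j)) / ((∑ j ∈ Finset.range k, κ (Y j)) + κ x) : ℝ≥0) :
          ℝ≥0∞) * f x)
    fun_prop
  rw [s1, s2]
  refine lintegral_congr fun k => ?_
  have e1 : ∀ x' : X, ∫⁻ Y, ∑ i ∈ Finset.range k,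
        ((κ x' / (κ x' + ∑ j ∈ Finset.range k, κ (Y j)) : ℝ≥0) : ℝ≥0∞) * f (Y i)
        ∂(Measure.infinitePi fun _ : ℕ => m) = ∑ i ∈ Finset.range k, ∫⁻ Y,
        ((κ x' / (κ x' + ∑ j ∈ Finset.range k, κ (Y j)) : ℝ≥0) : ℝ≥0∞) * f (Y i)
        ∂(Measure.infinitePi fun _ : ℕ => m) := by
    intro x'
    exact lintegral_finsetSum _ (fun i _ => by fun_prop)
  have e2 : ∀ x : X, ∫⁻ Y,
        (((∑ j ∈ Finset.range k, κ (Y j)) / ((∑ j ∈ Finset.range k, κ (Y j)) + κ x) : ℝ≥0) :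
          ℝ≥0∞) * f x ∂(Measure.infinitePi fun _ : ℕ => m) = ∑ i ∈ Finset.range k, ∫⁻ Y,
        ((κ (Y i) / ((∑ j ∈ Finset.range k, κ (Y j)) + κ x) : ℝ≥0) : ℝ≥0∞) * f x
        ∂(Measure.infinitePi fun _ : ℕ => m) := by
    intro x
    rw [← lintegral_finsetSum _ (fun i _ => by fun_prop)]
    refine lintegral_congr fun Y => ?_
    rw [Finset.sum_div, ENNReal.ofNNReal_finsetSum, Finset.sum_mul]
  simp_rw [e1, e2]
  rw [lintegral_finsetSum, lintegral_finsetSum]
  · exact Finset.sum_congr rfl fun i hi =>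
      exch_one m κ f hκ hf k i (Finset.mem_range.mp hi)
  · intro i _
    apply Measurable.lintegral_prod_right (f := fun (x : X) (Y : ℕ → X) =>
      ((κ (Y i) / ((∑ j ∈ Finset.range k, κ (Y j)) + κ x) : ℝ≥0) : ℝ≥0∞) * f x)
    fun_prop
  · intro i _
    apply Measurable.lintegral_prod_right (f := fun (x' : X) (Y : ℕ → X) =>
      ((κ x' / (κ x' + ∑ j ∈ Finset.range k, κ (Y j)) : ℝ≥0) : ℝ≥0∞) * f (Y i))
    fun_prop

end W672.FR
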