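import Pool.Agent.W626.FR.Stms
import Pool.Agent.W782.FG.Split

/-!
# The recursion for `Phi`
-/

namespace W672.FR

open MeasureTheory ProbabilityTheory Filter FrogGW FrogRec
open scoped ENNReal NNReal Classical Topology

theorem kap_meas (hZ : TaskMeasZ) (n : ℕ) : Measurable (kap n) :=
  hZ.1 (n + 1) ℝ≥0 (kap n) fun Z Z' h => (hZ.2.1 n Z Z' h).1

theorem KK_meas (hZ : TaskMeasZ) (n : ℕ) : Measurable (KK n) :=
  hZ.1 (n + 2) ℝ≥0 (KK n) fun Z Z' h => (hZ.2.2 n Z Z' h).2.1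

theorem root_meas : Measurable (fun Z : Env => Z []) := measurable_pi_apply _

theorem EG_meas (hZ : TaskMeasZ) (M mu : ℝ≥0) (j n : ℕ) : Measurable (EG M mu j n) :=
  hZ.1 (n + 1) ℝ≥0∞ _ fun Z Z' h => by
    unfold EG
    rw [(hZ.2.1 n Z Z' h).1, (hZ.2.1 n Z Z' h).2 mu]

/-- The summand. -/
noncomputable def ff (M mu : ℝ≥0) (j n : ℕ) (Z : Env) : ℝ≥0∞ :=
  (kap n Z : ℝ≥0∞) * EG M mu j n Z

theorem ff_meas (hZ : TaskMeasZ) (M mu : ℝ≥0) (j n : ℕ) : Measurable (ff M mu j n) :=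
  (kap_meas hZ n).coe_nnreal_ennreal.mul (EG_meas hZ M mu j n)

/-- Sum over the children of the root. -/
noncomputable def SS (M mu : ℝ≥0) (j n : ℕ) (Z : Env) : ℝ≥0∞ :=
  ∑ k ∈ Finset.range (Z []), ff M mu j n (sh k Z)

theorem SS_meas (hZ : TaskMeasZ) (M mu : ℝ≥0) (j n : ℕ) : Measurable (SS M mu j n) :=
  hZ.1 (n + 2) ℝ≥0∞ _ fun Z Z' h => by
    obtain ⟨h1, -, h3⟩ := hZ.2.2 n Z Z' h
    unfold SS
    rw [← h1]
    refine Finset.sum_congr rfl fun k hk => ?_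
    have hk' : k < Z [] := Finset.mem_range.mp hk
    unfold ff EG
    rw [(h3 k hk').1, (h3 k hk').2 mu]

theorem tree_int (hT : TaskTree) (p : Measure ℕ) [IsProbabilityMeasure p]
    (F : ℕ → (ℕ → Env) → ℝ≥0∞) (hF : ∀ k, Measurable (F k)) :
    ∫⁻ Z, F (Z []) (fun i => sh i Z) ∂(GW p) =
      ∫⁻ k, ∫⁻ Y, F k Y ∂(Measure.infinitePi fun _ : ℕ => GW p) ∂p := by
  have hm : Measurable (fun q : ℕ × (ℕ → Env) => F q.1 q.2) :=
    measurable_from_prod_countable_right (fun k => hF k)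
  have h := (hT p).lintegral_comp hm
  rw [h, lintegral_prod _ hm.aemeasurable]

theorem gg_div (M : ℝ≥0) (j : ℕ) (κ lam : ℝ≥0) : gg M j 1 (lam / κ) = gg M j κ lam := by
  unfold gg
  rw [one_mul, div_div]

theorem gg_gain (M mu K r : ℝ≥0) (hM : 0 < M) (hK : 0 < K) :
    gg M 1 1 (r + mu / K) + (mu / (mu + M * K)) * gg M 2 1 r ≤ gg M 1 1 r := by
  unfold gg
  rw [← NNReal.coe_le_coe]
  push_cast
  have hM' : (0 : ℝ) < M := hM
  have hK' : (0 : ℝ) < K := hK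
  have hmu : (0 : ℝ) ≤ mu := mu.2
  have hr : (0 : ℝ) ≤ r := r.2
  set a : ℝ := 1 + (r : ℝ) / (1 * M) with ha
  set b : ℝ := (mu : ℝ) / (K * M) with hb
  have ha1 : 1 ≤ a := by rw [ha]; have : 0 ≤ (r : ℝ) / (1 * M) := by positivity
                         linarith
  have hb0 : 0 ≤ b := by positivity
  have e1 : 1 + ((r : ℝ) + mu / K) / (1 * M) = a + b := by
    rw [ha, hb]; field_simp; try ring
  have e2 : (mu : ℝ) / (mu + M * K) = b / (1 + b) := by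
    rw [hb]
    have : (0:ℝ) < mu + M * K := by positivity
    field_simp
    try ring
  rw [e1, e2]
  have hapos : 0 < a := by linarith
  have hab : 0 < a + b := by linarith
  have h1b : 0 < 1 + b := by linarith
  rw [pow_one, pow_one]
  have key : a⁻¹ - (a + b)⁻¹ = b / (a * (a + b)) := by
    field_simp
    try ring
  have key2 : b / (1 + b) * a⁻¹ ^ 2 ≤ b / (a * (a + b)) := by
    have : b / (1 + b) * a⁻¹ ^ 2 = b / ((1 + b) * a ^ 2) := by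
      field_simp
    rw [this]
    apply div_le_div_of_nonneg_left hb0 (by positivity)
    nlinarith [mul_nonneg hb0 (by linarith : 0 ≤ a - 1)]
  linarith

theorem child_ineq (M mu K : ℝ≥0) (hM : 0 < M) (hK : 0 < K) (n : ℕ) (W : Env) :
    (∫⁻ lam, (gg M 1 1 (lam / kap n W + mu / K) : ℝ≥0∞) ∂(nu mu n W)) +
      ((mu / (mu + M * K) : ℝ≥0) : ℝ≥0∞) * EG M mu 2 n W ≤ EG M mu 1 n W := by
  unfold EG
  calc (∫⁻ lam, (gg M 1 1 (lam / kap n W + mu / K) : ℝ≥0∞) ∂(nu mu n W)) +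
      ((mu / (mu + M * K) : ℝ≥0) : ℝ≥0∞) * ∫⁻ lam, (gg M 2 (kap n W) lam : ℝ≥0∞) ∂(nu mu n W)
      ≤ (∫⁻ lam, (gg M 1 1 (lam / kap n W + mu / K) : ℝ≥0∞) ∂(nu mu n W)) +
      ∫⁻ lam, ((mu / (mu + M * K) : ℝ≥0) : ℝ≥0∞) * (gg M 2 (kap n W) lam : ℝ≥0∞)
        ∂(nu mu n W) := by
        gcongr
        exact lintegral_const_mul_le _ _
    _ ≤ ∫⁻ lam, ((gg M 1 1 (lam / kap n W + mu / K) : ℝ≥0∞) +
      ((mu / (mu + M * K) : ℝ≥0) : ℝ≥0∞) * (gg M 2 (kap n W) lam : ℝ≥0∞)) ∂(nu mu n W) :=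
        le_lintegral_add _ _
    _ ≤ _ := by
        apply lintegral_mono
        intro lam
        have h := gg_gain M mu K (lam / kap n W) hM hK
        rw [gg_div, gg_div] at h
        beta_reduce
        exact_mod_cast h

/-- The extra term. -/
noncomputable def RR (mu : ℝ≥0) (n : ℕ) (Z : Env) (k : ℕ) : ℝ≥0∞ :=
  ∑ J ∈ (Finset.range (Z [])).erase k, ((kc n Z J / KK n Z : ℝ≥0) : ℝ≥0∞) *
    TT mu (Z []) (kc n Z) (nc mu n Z) k J

/-- The inequality at one vertex. -/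
theorem vertex (hK : TaskKap) (hN : TaskNu) (hS : TaskStar) (M mu : ℝ≥0) (hM : 0 < M) (n : ℕ)
    (Z : Env) (h0 : KK n Z ≠ 0) :
    (KK n Z : ℝ≥0∞) * EG M mu 1 (n + 1) Z +
        ((mu / (mu + M * KK n Z) : ℝ≥0) : ℝ≥0∞) * SS M mu 2 n Z ≤
      SS M mu 1 n Z + ∑ k ∈ Finset.range (Z []), (kc n Z k : ℝ≥0∞) * RR mu n Z k := by
  have hsum : ∑ k ∈ Finset.range (Z []), kc n Z k = KK n Z := (hK.2.2.2.1 n Z).symm
  have hst := hS M mu 1 (Z []) (kc n Z) (nc mu n Z) hM (Or.inl rfl) (by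
    intro k
    unfold nc
    split_ifs
    · exact hN.2.1 mu n (sh k Z)
    · infer_instance) (by rw [hsum]; exact h0)
  rw [hsum] at hst
  have hEG : EG M mu 1 (n + 1) Z = ∫⁻ lam, (gg M 1 (KK n Z / (1 + KK n Z)) lam : ℝ≥0∞)
      ∂(star mu (Z []) (kc n Z) (nc mu n Z)) := rfl
  rw [← hEG] at hst
  have hpos : 0 < KK n Z := pos_iff_ne_zero.mpr h0
  have h1 : (KK n Z : ℝ≥0∞) * EG M mu 1 (n + 1) Z ≤ ∑ k ∈ Finset.range (Z []),
      (kc n Z k : ℝ≥0∞) * ((∫⁻ lam, (gg M 1 1 (lam / kc n Z k + mu / KK n Z) : ℝ≥0∞)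
        ∂(nc mu n Z k)) + RR mu n Z k) := by
    refine (mul_le_mul_right hst _).trans ?_
    rw [Finset.mul_sum]
    refine Finset.sum_le_sum fun k _ => ?_
    rw [← mul_assoc, ← ENNReal.coe_mul, mul_div_cancel₀ _ h0]
    exact le_rfl
  calc (KK n Z : ℝ≥0∞) * EG M mu 1 (n + 1) Z +
        ((mu / (mu + M * KK n Z) : ℝ≥0) : ℝ≥0∞) * SS M mu 2 n Z
      ≤ (∑ k ∈ Finset.range (Z []),
      (kc n Z k : ℝ≥0∞) * ((∫⁻ lam, (gg M 1 1 (lam / kc n Z k + mu / KK n Z) : ℝ≥0∞)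
        ∂(nc mu n Z k)) + RR mu n Z k)) +
        ((mu / (mu + M * KK n Z) : ℝ≥0) : ℝ≥0∞) * SS M mu 2 n Z := by gcongr
    _ = ∑ k ∈ Finset.range (Z []), ((kc n Z k : ℝ≥0∞) *
        ((∫⁻ lam, (gg M 1 1 (lam / kc n Z k + mu / KK n Z) : ℝ≥0∞)
        ∂(nc mu n Z k)) + RR mu n Z k) +
        ((mu / (mu + M * KK n Z) : ℝ≥0) : ℝ≥0∞) * ff M mu 2 n (sh k Z)) := by
        rw [SS, Finset.mul_sum, ← Finset.sum_add_distrib]
    _ ≤ ∑ k ∈ Finset.range (Z []), (ff M mu 1 n (sh k Z) + (kc n Z k : ℝ≥0∞) * RR mu n Z k) := by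
        refine Finset.sum_le_sum fun k hk => ?_
        have hk' : k < Z [] := Finset.mem_range.mp hk
        have e1 : kc n Z k = kap n (sh k Z) := by unfold kc; rw [if_pos hk']
        have e2 : nc mu n Z k = nu mu n (sh k Z) := by unfold nc; rw [if_pos hk']
        rw [e1, e2]
        have hc := child_ineq M mu (KK n Z) hM hpos n (sh k Z)
        unfold ff
        calc _ = (kap n (sh k Z) : ℝ≥0∞) *
              ((∫⁻ lam, (gg M 1 1 (lam / kap n (sh k Z) + mu / KK n Z) : ℝ≥0∞)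
                ∂(nu mu n (sh k Z))) +
              ((mu / (mu + M * KK n Z) : ℝ≥0) : ℝ≥0∞) * EG M mu 2 n (sh k Z)) +
              (kap n (sh k Z) : ℝ≥0∞) * RR mu n Z k := by ring
          _ ≤ _ := by gcongr
    _ = _ := by rw [Finset.sum_add_distrib, SS]

/-- The integrand of `Phi`. -/
noncomputable def FI (M mu : ℝ≥0) (n : ℕ) (Z Y : Env) : ℝ≥0∞ :=
  ((KK n Y / (KK n Y + kap n Z) : ℝ≥0) : ℝ≥0∞) * ((kap n Z : ℝ≥0∞) * EG M mu 1 n Z)

theorem kap_succ (n : ℕ) (Z : Env) : kap (n + 1) Z = KK n Z / (1 + KK n Z) := rfl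

theorem ratio (hK : TaskKap) (n : ℕ) (Z Y : Env) (h0 : KK n Z ≠ 0) :
    KK (n + 1) Y / (KK (n + 1) Y + kap (n + 1) Z) * kap (n + 1) Z ≤
      kap n Y / (kap n Y + KK n Z) * KK n Z := by
  have h1 : KK (n + 1) Y / (1 + KK (n + 1) Y) ≤ kap n Y := by
    rw [← kap_succ]
    exact (hK.2.1 (n + 1) Y).trans (hK.2.1 n Y)
  rw [kap_succ]
  have hK0 : (0 : ℝ) < KK n Z := by
    have := pos_iff_ne_zero.mpr h0
    exact_mod_cast this
  have hy : (0 : ℝ) ≤ KK (n + 1) Y := (KK (n + 1) Y).2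
  have hk : (0 : ℝ) ≤ kap n Y := (kap n Y).2
  rw [← NNReal.coe_le_coe] at h1 ⊢
  push_cast at h1 ⊢
  generalize ((KK n Z : ℝ≥0) : ℝ) = K at hK0 h1 ⊢
  generalize ((KK (n + 1) Y : ℝ≥0) : ℝ) = L at hy h1 ⊢
  generalize ((kap n Y : ℝ≥0) : ℝ) = k at hk h1 ⊢
  rw [div_le_iff₀ (by positivity)] at h1
  have e : L / (L + K / (1 + K)) * (K / (1 + K)) = L * K / (L * (1 + K) + K) := by
    have : 0 < L * (1 + K) + K := by positivity
    field_simp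
  rw [e, div_mul_eq_mul_div]
  rw [div_le_div_iff₀ (by positivity) (by positivity)]
  have : 0 ≤ K * K * (k * (1 + L) - L) := by
    apply mul_nonneg (by positivity)
    linarith
  nlinarith

/-- The inequality for a pair of environments. -/
theorem pair (hK : TaskKap) (hN : TaskNu) (hS : TaskStar) (M mu : ℝ≥0) (hM : 1 ≤ M)
    (hmu : M ≤ mu) (n : ℕ) (Z Y : Env) :
    FI M mu (n + 1) Z Y + (kap n Y : ℝ≥0∞) *
        (((((1 + (Z [] : ℝ≥0))⁻¹) ^ 2 : ℝ≥0) : ℝ≥0∞) * SS M mu 2 n Z) ≤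
      ((kap n Y / (kap n Y + KK n Z) : ℝ≥0) : ℝ≥0∞) * SS M mu 1 n Z + Ls mu n Z := by
  by_cases h0 : KK n Z = 0
  · have h1 : kap (n + 1) Z = 0 := by rw [kap_succ, h0]; simp
    have h2 : FI M mu (n + 1) Z Y = 0 := by unfold FI; rw [h1]; simp
    have h3 : SS M mu 2 n Z = 0 := by
      unfold SS
      refine Finset.sum_eq_zero fun k hk => ?_
      unfold KK at h0
      rw [Finset.sum_eq_zero_iff] at h0
      unfold ff
      rw [h0 k hk]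
      simp
    rw [h2, h3]
    simp
  · have hpos : 0 < KK n Z := pos_iff_ne_zero.mpr h0
    have hM0 : 0 < M := lt_of_lt_of_le one_pos hM
    have hmu0 : 0 < mu := lt_of_lt_of_le hM0 hmu
    have hv := vertex hK hN hS M mu hM0 n Z h0
    set a : ℝ≥0 := kap n Y / (kap n Y + KK n Z) with ha
    have h1 : FI M mu (n + 1) Z Y ≤ (a : ℝ≥0∞) * ((KK n Z : ℝ≥0∞) * EG M mu 1 (n + 1) Z) := by
      unfold FI
      rw [← mul_assoc, ← mul_assoc, ← ENNReal.coe_mul, ← ENNReal.coe_mul]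
      refine mul_le_mul' ?_ le_rfl
      exact ENNReal.coe_le_coe.mpr (ratio hK n Z Y h0)
    have hkap1 : kap n Y ≤ 1 := hK.1 n Y
    have hKD : KK n Z ≤ (Z [] : ℝ≥0) := hK.2.2.1 n Z
    have h2 : kap n Y * ((1 + (Z [] : ℝ≥0))⁻¹) ^ 2 ≤ a * (mu / (mu + M * KK n Z)) := by
      have h21 : kap n Y * (1 + (Z [] : ℝ≥0))⁻¹ ≤ a := by
        rw [ha, ← div_eq_mul_inv]
        apply div_le_div_of_nonneg_left zero_le (by positivity)
        exact add_le_add hkap1 hKD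
      have h22 : (1 + (Z [] : ℝ≥0))⁻¹ ≤ mu / (mu + M * KK n Z) := by
        rw [inv_eq_one_div, div_le_div_iff₀ (by positivity) (by positivity), one_mul]
        calc mu + M * KK n Z ≤ mu + mu * (Z [] : ℝ≥0) := by gcongr
          _ = mu * (1 + (Z [] : ℝ≥0)) := by ring
      calc kap n Y * ((1 + (Z [] : ℝ≥0))⁻¹) ^ 2 = (kap n Y * (1 + (Z [] : ℝ≥0))⁻¹) *
            (1 + (Z [] : ℝ≥0))⁻¹ := by ring
        _ ≤ a * (mu / (mu + M * KK n Z)) := by gcongr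
    have h3 : (a : ℝ≥0∞) * ∑ k ∈ Finset.range (Z []), (kc n Z k : ℝ≥0∞) * RR mu n Z k ≤
        Ls mu n Z := by
      unfold Ls LL
      rw [← hK.2.2.2.1 n Z, Finset.mul_sum]
      refine Finset.sum_le_sum fun i _ => ?_
      unfold RR
      rw [Finset.mul_sum, Finset.mul_sum]
      refine Finset.sum_le_sum fun J _ => ?_
      rw [← mul_assoc, ← mul_assoc, ← ENNReal.coe_mul, ← ENNReal.coe_mul]
      refine mul_le_mul' (ENNReal.coe_le_coe.mpr ?_) le_rfl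
      have h31 : a ≤ (KK n Z / (1 + KK n Z))⁻¹ * (KK n Z)⁻¹ := by
        calc a ≤ 1 / KK n Z := by
              rw [ha]
              apply div_le_div₀ zero_le_one hkap1 hpos
              exact le_add_self
          _ = 1 * (KK n Z)⁻¹ := by rw [one_div, one_mul]
          _ ≤ (KK n Z / (1 + KK n Z))⁻¹ * (KK n Z)⁻¹ := by
              gcongr
              rw [inv_div, le_div_iff₀ hpos, one_mul]
              exact le_add_self
      calc a * kc n Z i * (kc n Z J / KK n Z)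
          = a * (kc n Z i * (kc n Z J / KK n Z)) := by ring
        _ ≤ ((KK n Z / (1 + KK n Z))⁻¹ * (KK n Z)⁻¹) * (kc n Z i * (kc n Z J / KK n Z)) := by
            gcongr
        _ = (KK n Z / (1 + KK n Z))⁻¹ * (kc n Z i / KK n Z) * (kc n Z J / KK n Z) := by
            rw [div_eq_mul_inv (kc n Z i)]; ring
    calc FI M mu (n + 1) Z Y + (kap n Y : ℝ≥0∞) *
        (((((1 + (Z [] : ℝ≥0))⁻¹) ^ 2 : ℝ≥0) : ℝ≥0∞) * SS M mu 2 n Z)
        ≤ (a : ℝ≥0∞) * ((KK n Z : ℝ≥0∞) * EG M mu 1 (n + 1) Z) +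
          ((a * (mu / (mu + M * KK n Z)) : ℝ≥0) : ℝ≥0∞) * SS M mu 2 n Z := by
          refine add_le_add h1 ?_
          rw [← mul_assoc, ← ENNReal.coe_mul]
          gcongr
      _ = (a : ℝ≥0∞) * ((KK n Z : ℝ≥0∞) * EG M mu 1 (n + 1) Z +
          ((mu / (mu + M * KK n Z) : ℝ≥0) : ℝ≥0∞) * SS M mu 2 n Z) := by
          rw [ENNReal.coe_mul]; ring
      _ ≤ (a : ℝ≥0∞) * (SS M mu 1 n Z + ∑ k ∈ Finset.range (Z []),
          (kc n Z k : ℝ≥0∞) * RR mu n Z k) := by gcongr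
      _ = (a : ℝ≥0∞) * SS M mu 1 n Z + (a : ℝ≥0∞) * ∑ k ∈ Finset.range (Z []),
          (kc n Z k : ℝ≥0∞) * RR mu n Z k := mul_add _ _ _
      _ ≤ _ := by gcongr

/-! ## Integration -/

theorem phi_eq (p : Measure ℕ) [IsProbabilityMeasure p] (M mu : ℝ≥0) (n : ℕ) :
    Phi p M mu n = ∫⁻ Z, ∫⁻ Y, FI M mu n Z Y ∂(GW p) ∂(GW p) := rfl

theorem gain_eq (p : Measure ℕ) [IsProbabilityMeasure p] (M mu : ℝ≥0) (n : ℕ) :
    Gain p M mu n = ∫⁻ Z, ff M mu 2 n Z ∂(GW p) := rfl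

/-- The main term. -/
theorem main_term (hZ : TaskMeasZ) (hE : TaskExch) (p : Measure ℕ) [IsProbabilityMeasure p]
    (M mu : ℝ≥0) (n : ℕ) :
    ∫⁻ Z, ∫⁻ Y, ((kap n Y / (kap n Y + KK n Z) : ℝ≥0) : ℝ≥0∞) * SS M mu 1 n Z
      ∂(GW p) ∂(GW p) = Phi p M mu n := by
  have hk := kap_meas hZ n
  have hf := ff_meas hZ M mu 1 n
  have hE' := hE Env (GW p) (kap n) p (ff M mu 1 n) hk hf
  have hT := Pool.Agent.W782.FG.tree
  rw [lintegral_lintegral_swap]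
  · have e1 : ∀ Y : Env, ∫⁻ Z, ((kap n Y / (kap n Y + KK n Z) : ℝ≥0) : ℝ≥0∞) * SS M mu 1 n Z
        ∂(GW p) = ∫⁻ k, ∫⁻ W, ∑ i ∈ Finset.range k,
        ((kap n Y / (kap n Y + ∑ j ∈ Finset.range k, kap n (W j)) : ℝ≥0) : ℝ≥0∞) *
          ff M mu 1 n (W i) ∂(Measure.infinitePi fun _ : ℕ => GW p) ∂p := by
      intro Y
      rw [← tree_int hT p (fun k W => ∑ i ∈ Finset.range k,
        ((kap n Y / (kap n Y + ∑ j ∈ Finset.range k, kap n (W j)) : ℝ≥0) : ℝ≥0∞) *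
          ff M mu 1 n (W i)) (by
            intro k
            fun_prop)]
      refine lintegral_congr fun Z => ?_
      unfold SS KK
      rw [Finset.mul_sum]
    simp_rw [e1]
    rw [hE', phi_eq]
    refine lintegral_congr fun Z => ?_
    rw [← tree_int hT p (fun k W => (((∑ j ∈ Finset.range k, kap n (W j)) /
      ((∑ j ∈ Finset.range k, kap n (W j)) + kap n Z) : ℝ≥0) : ℝ≥0∞) * ff M mu 1 n Z) (by
        intro k
        fun_prop)]
    rfl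
  · apply Measurable.aemeasurable
    have h1 := KK_meas hZ n
    have h2 := SS_meas hZ M mu 1 n
    fun_prop

/-- The gain term. -/
theorem gain_term (hZ : TaskMeasZ) (p : Measure ℕ) [IsProbabilityMeasure p]
    (M mu : ℝ≥0) (n : ℕ) :
    ∫⁻ Z, (((((1 + (Z [] : ℝ≥0))⁻¹) ^ 2 : ℝ≥0) : ℝ≥0∞) * SS M mu 2 n Z) ∂(GW p) =
      (∫⁻ k, (((((1 + (k : ℝ≥0))⁻¹) ^ 2 * k : ℝ≥0)) : ℝ≥0∞) ∂p) * Gain p M mu n := by
  have hf := ff_meas hZ M mu 2 n
  have h := tree_int Pool.Agent.W782.FG.tree p (fun k W =>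
    (((((1 + (k : ℝ≥0))⁻¹) ^ 2 : ℝ≥0) : ℝ≥0∞) * ∑ i ∈ Finset.range k, ff M mu 2 n (W i))) (by
      intro k
      fun_prop)
  unfold SS
  rw [h, gain_eq, ← lintegral_mul_const _ (by fun_prop)]
  refine lintegral_congr fun k => ?_
  rw [lintegral_const_mul _ (by fun_prop), lintegral_finsetSum _ (by fun_prop)]
  have e : ∀ i ∈ Finset.range k, ∫⁻ W : ℕ → Env, ff M mu 2 n (W i)
      ∂(Measure.infinitePi fun _ : ℕ => GW p) = ∫⁻ Z, ff M mu 2 n Z ∂(GW p) := by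
    intro i _
    exact (measurePreserving_eval_infinitePi (fun _ : ℕ => GW p) i).lintegral_comp hf
  rw [Finset.sum_congr rfl e, Finset.sum_const, Finset.card_range, nsmul_eq_mul]
  push_cast
  ring

theorem pos_const (p : Measure ℕ) [IsProbabilityMeasure p] (hp : Super p) :
    (∫⁻ k, (((((1 + (k : ℝ≥0))⁻¹) ^ 2 * k : ℝ≥0)) : ℝ≥0∞) ∂p) ≠ 0 := by
  intro h
  rw [lintegral_eq_zero_iff (by fun_prop)] at h
  have h2 : ∫⁻ k, (k : ℝ≥0∞) ∂p = 0 := by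
    rw [lintegral_eq_zero_iff (by fun_prop)]
    filter_upwards [h] with k hk
    simp only [Pi.zero_apply, ENNReal.coe_eq_zero, mul_eq_zero] at hk
    rcases hk with hk | hk
    · exfalso
      have : (0 : ℝ≥0) < ((1 + (k : ℝ≥0))⁻¹) ^ 2 := by positivity
      exact this.ne' hk
    · simp only [Pi.zero_apply]
      exact_mod_cast hk
  unfold Super at hp
  rw [h2] at hp
  simp at hp

theorem const_le (p : Measure ℕ) [IsProbabilityMeasure p] :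
    (∫⁻ k, (((((1 + (k : ℝ≥0))⁻¹) ^ 2 * k : ℝ≥0)) : ℝ≥0∞) ∂p) ≤ 1 := by
  calc _ ≤ ∫⁻ _k : ℕ, 1 ∂p := by
        apply lintegral_mono
        intro k
        beta_reduce
        have : ((1 + (k : ℝ≥0))⁻¹) ^ 2 * k ≤ 1 := by
          rw [inv_pow, inv_mul_le_iff₀ (by positivity), mul_one]
          calc (k : ℝ≥0) ≤ 1 + k := le_add_self
            _ ≤ (1 + (k : ℝ≥0)) ^ 2 := by
              rw [sq]
              exact le_mul_of_one_le_left (by positivity) le_self_add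
        exact_mod_cast this
    _ = 1 := by simp

/-- The recursion for `Phi`. -/
theorem taskR1 (hK : TaskKap) (hZ : TaskMeasZ) (hEnv : TaskEnv) (hN : TaskNu) (hS : TaskStar)
    (hE : TaskExch) : TaskR1 := by
  intro p _ hp
  obtain ⟨c, hc0, hc⟩ := (hEnv p hp).2.1
  set d : ℝ≥0∞ := ∫⁻ k, (((((1 + (k : ℝ≥0))⁻¹) ^ 2 * k : ℝ≥0)) : ℝ≥0∞) ∂p with hd
  have hd0 : d ≠ 0 := pos_const p hp
  have hd1 : d ≠ ∞ := ((const_le p).trans_lt ENNReal.one_lt_top).ne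
  refine ⟨c * d.toNNReal, mul_pos hc0 (ENNReal.toNNReal_pos hd0 hd1), ?_⟩
  intro M mu hM hmu n
  have hkm := kap_meas hZ n
  have hKm := KK_meas hZ n
  have hSm := SS_meas hZ M mu 1 n
  have hFm : Measurable (fun Z : Env => ∫⁻ Y, ((kap n Y / (kap n Y + KK n Z) : ℝ≥0) : ℝ≥0∞) *
      SS M mu 1 n Z ∂(GW p)) := by
    apply Measurable.lintegral_prod_right (f := fun Z Y : Env =>
      ((kap n Y / (kap n Y + KK n Z) : ℝ≥0) : ℝ≥0∞) * SS M mu 1 n Z)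
    fun_prop
  set g : Env → ℝ≥0∞ := fun Z => ((((1 + (Z [] : ℝ≥0))⁻¹) ^ 2 : ℝ≥0) : ℝ≥0∞) * SS M mu 2 n Z
    with hg
  have hgain : ∫⁻ Z, g Z ∂(GW p) = d * Gain p M mu n := gain_term hZ p M mu n
  rw [ENNReal.coe_mul, ENNReal.coe_toNNReal hd1]
  calc Phi p M mu (n + 1) + (c : ℝ≥0∞) * d * Gain p M mu n
      = (∫⁻ Z, ∫⁻ Y, FI M mu (n + 1) Z Y ∂(GW p) ∂(GW p)) +
          (c : ℝ≥0∞) * ∫⁻ Z, g Z ∂(GW p) := by rw [phi_eq, hgain, mul_assoc]
    _ ≤ (∫⁻ Z, ∫⁻ Y, FI M mu (n + 1) Z Y ∂(GW p) ∂(GW p)) +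
          (∫⁻ Y, (kap n Y : ℝ≥0∞) ∂(GW p)) * ∫⁻ Z, g Z ∂(GW p) := by
        gcongr
        exact hc n
    _ ≤ (∫⁻ Z, ∫⁻ Y, FI M mu (n + 1) Z Y ∂(GW p) ∂(GW p)) +
          ∫⁻ Z, (∫⁻ Y, (kap n Y : ℝ≥0∞) ∂(GW p)) * g Z ∂(GW p) := by
        gcongr
        exact lintegral_const_mul_le _ _
    _ ≤ ∫⁻ Z, ((∫⁻ Y, FI M mu (n + 1) Z Y ∂(GW p)) +
          (∫⁻ Y, (kap n Y : ℝ≥0∞) ∂(GW p)) * g Z) ∂(GW p) := le_lintegral_add _ _
    _ ≤ ∫⁻ Z, ((∫⁻ Y, ((kap n Y / (kap n Y + KK n Z) : ℝ≥0) : ℝ≥0∞) * SS M mu 1 n Z ∂(GW p)) +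
          Ls mu n Z) ∂(GW p) := by
        apply lintegral_mono
        intro Z
        beta_reduce
        calc (∫⁻ Y, FI M mu (n + 1) Z Y ∂(GW p)) + (∫⁻ Y, (kap n Y : ℝ≥0∞) ∂(GW p)) * g Z
            = (∫⁻ Y, FI M mu (n + 1) Z Y ∂(GW p)) + ∫⁻ Y, (kap n Y : ℝ≥0∞) * g Z ∂(GW p) := by
              rw [lintegral_mul_const _ (by fun_prop)]
          _ ≤ ∫⁻ Y, (FI M mu (n + 1) Z Y + (kap n Y : ℝ≥0∞) * g Z) ∂(GW p) :=
              le_lintegral_add _ _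
          _ ≤ ∫⁻ Y, (((kap n Y / (kap n Y + KK n Z) : ℝ≥0) : ℝ≥0∞) * SS M mu 1 n Z +
                Ls mu n Z) ∂(GW p) := by
              apply lintegral_mono
              intro Y
              exact pair hK hN hS M mu hM hmu n Z Y
          _ = _ := by
              rw [lintegral_add_right _ measurable_const, lintegral_const, measure_univ, mul_one]
    _ = (∫⁻ Z, ∫⁻ Y, ((kap n Y / (kap n Y + KK n Z) : ℝ≥0) : ℝ≥0∞) * SS M mu 1 n Z
          ∂(GW p) ∂(GW p)) + ∫⁻ Z, Ls mu n Z ∂(GW p) := lintegral_add_left hFm _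
    _ = _ := by rw [main_term hZ hE p M mu n]

end W672.FR
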