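import Pool.Agent.W626.FR.Stms

/-!
# Laplace transform of the pressure with the first particle
-/

namespace W672.FR

open MeasureTheory ProbabilityTheory Filter FrogGW FrogRec
open scoped ENNReal NNReal Classical Topology

/-- Updating one coordinate by an independent copy preserves a product measure. -/
theorem mp_update {α : Type} [MeasurableSpace α] (μ : ℕ → Measure α)
    [∀ k, IsProbabilityMeasure (μ k)] (J : ℕ) :
    MeasurePreserving (fun q : α × (ℕ → α) => Function.update q.2 J q.1)
      ((μ J).prod (Measure.infinitePi μ)) (Measure.infinitePi μ) := by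
  have hm : Measurable (fun q : α × (ℕ → α) => Function.update q.2 J q.1) := by
    rw [measurable_pi_iff]
    intro k
    by_cases hk : k = J
    · subst hk
      simp only [Function.update_self]
      exact measurable_fst
    · simp only [Function.update_of_ne hk]
      exact (measurable_pi_apply k).comp measurable_snd
  refine ⟨hm, ?_⟩
  apply Measure.eq_infinitePi
  intro s t ht
  rw [Measure.map_apply hm (.pi s.countable_toSet fun _ _ => ht _)]
  have h1 : ((fun q : α × (ℕ → α) => Function.update q.2 J q.1) ⁻¹' (Set.pi s t) :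
      Set (α × (ℕ → α))) =
      (if J ∈ s then t J else Set.univ) ×ˢ (Set.pi (s.erase J : Finset ℕ) t) := by
    ext q
    constructor
    · intro h
      constructor
      · split_ifs with h2
        · have := h J h2
          simpa using this
        · trivial
      · intro k hk
        have hk' : k ∈ s.erase J := hk
        have := h k (Finset.mem_of_mem_erase hk')
        simpa [Function.update_of_ne (Finset.ne_of_mem_erase hk')] using this
    · rintro ⟨h2, h3⟩ k hk
      by_cases hkJ : k = J
      · subst hkJ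
        have hk' : k ∈ s := hk
        rw [if_pos hk'] at h2
        simpa using h2
      · have : k ∈ s.erase J := Finset.mem_erase.mpr ⟨hkJ, hk⟩
        have := h3 k this
        simpa [Function.update_of_ne hkJ] using this
  rw [h1, Measure.prod_prod, Measure.infinitePi_pi _ (fun k _ => ht _)]
  by_cases h2 : J ∈ s
  · rw [if_pos h2, Finset.mul_prod_erase s (fun k => μ k (t k)) h2]
  · rw [if_neg h2, measure_univ, one_mul, Finset.erase_eq_of_notMem h2]

/-- `Sel` depends on the coordinates in `s` only. -/
theorem Sel_congr (a c : ℝ≥0) (κ : ℕ → ℝ≥0) (s : Finset ℕ) (w w' : ℕ → ℝ × ℝ≥0)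
    (h : ∀ k ∈ s, w k = w' k) : Sel a c κ s w = Sel a c κ s w' := by
  unfold Sel
  congr 1
  ext t
  simp only [Set.mem_ofPred_eq]
  rw [Finset.sum_congr rfl fun k hk => by rw [h k hk]]

theorem pr_eq (ν : Measure ℝ≥0) [h : IsProbabilityMeasure ν] : pr ν = ν := by
  unfold pr
  rw [if_pos h]

/-- Splitting off the coordinate `J`. -/
theorem TT_le (mu : ℝ≥0) (D : ℕ) (κ : ℕ → ℝ≥0) (ν : ℕ → Measure ℝ≥0) (i J : ℕ)
    (hν : ∀ k, IsProbabilityMeasure (ν k)) (g : ℝ≥0 → ℝ≥0∞) (hg : Measurable g)
    (h : ∀ lam : ℝ≥0, ∫⁻ w, ENNReal.ofReal (Real.exp (-((κ i : ℝ) *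
      (Sel (mu + lam) (1 + ∑ k ∈ Finset.range D, κ k) κ
        (((Finset.range D).erase J).erase i) w : ℝ)))) ∂(WW ν) ≤ g lam) :
    TT mu D κ ν i J ≤ ∫⁻ lam, g lam ∂(ν J) := by
  have hJ := hν J
  have hmp := mp_update (fun k => unif.prod (pr (ν k))) J
  have h1 : WW ν = Measure.map (fun q : (ℝ × ℝ≥0) × (ℕ → ℝ × ℝ≥0) => Function.update q.2 J q.1)
      ((unif.prod (pr (ν J))).prod (WW ν)) := hmp.map_eq.symm
  unfold TT
  rw [h1]
  refine (lintegral_map_le _ _).trans ?_
  refine (lintegral_prod_le _).trans ?_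
  calc _ ≤ ∫⁻ y, g y.2 ∂(unif.prod (pr (ν J))) := by
        apply lintegral_mono
        intro y
        refine le_trans (le_of_eq ?_) (h y.2)
        refine lintegral_congr fun w => ?_
        dsimp only
        rw [Function.update_self]
        rw [Sel_congr _ _ _ _ (Function.update w J y) w]
        intro k hk
        rw [Function.update_of_ne]
        exact Finset.ne_of_mem_erase (Finset.mem_of_mem_erase hk)
    _ = ∫⁻ lam, g lam ∂(ν J) := by
        have h2 : (unif.prod (pr (ν J))).map Prod.snd = pr (ν J) := by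
          rw [Measure.map_snd_prod, measure_univ, one_smul]
        have h3 : ∫⁻ lam, g lam ∂(pr (ν J)) = ∫⁻ y, g y.2 ∂(unif.prod (pr (ν J))) := by
          rw [← lintegral_map (μ := unif.prod (pr (ν J))) (f := g) (g := Prod.snd) hg measurable_snd, h2]
        rw [← h3, pr_eq (ν J)]

theorem taskRho (hG : TaskGrow2) : TaskRho := by
  intro α B m mu D κ ν i J G hα hα1 hB hm hGs hκ hν hGk hD
  have hJ := hν J
  have hle := TT_le mu D κ ν i J hν (fun lam =>
    ENNReal.ofReal (2 * Real.exp (-(α * ((mu : ℝ) + lam) / (4 * B)))) +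
      (G.card : ℝ≥0∞)⁻¹ * ∑ k ∈ G, ∫⁻ lam, ENNReal.ofReal
        (Real.exp (-((κ i : ℝ) * lam / (8 * B)))) ∂(ν k) +
      ENNReal.ofReal ((7 / 10) ^ G.card * Real.exp (-((κ i : ℝ) * ((mu : ℝ) + lam) /
        (2 * (1 + ∑ k ∈ Finset.range D, (κ k : ℝ))))))) (by fun_prop) (by
      intro lam
      have hc : ((1 + ∑ k ∈ Finset.range D, κ k : ℝ≥0) : ℝ) =
          1 + ∑ k ∈ Finset.range D, (κ k : ℝ) := by push_cast; rfl
      have h := hG α B m (mu + lam) (1 + ∑ k ∈ Finset.range D, κ k) (κ i) κ ν
        (((Finset.range D).erase J).erase i) G hα hα1 hB hm le_self_add hGs hν hGk (by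
          rw [hc]
          refine le_trans ?_ hD
          have : ∑ k ∈ Finset.range D, (κ k : ℝ) ≤ ∑ k ∈ Finset.range D, (1 : ℝ) :=
            Finset.sum_le_sum fun k _ => by exact_mod_cast hκ k
          simp only [Finset.sum_const, Finset.card_range, nsmul_eq_mul, mul_one] at this
          linarith)
      rw [hc, NNReal.coe_add] at h
      exact h)
  refine hle.trans (le_of_eq ?_)
  rw [lintegral_add_left (by fun_prop), lintegral_add_left (by fun_prop), lintegral_const,
    measure_univ, mul_one]

end W672.FR
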